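import Pool.Agent.Lib_MP_01c500_full.Core

set_option autoImplicit false

namespace Pool.Agent.Results.MP_01c500_co.DegreeBound

open Finset Pool.Agent.Ram01c5

lemma NN_le' (q n M : ℕ) (hq : 0 < q) (hn : 0 < n) (hM : 2 ≤ M) :
    NN q M n ≤ (2 * q) ^ (5 * M) * n ^ 2 := by
  have h2 : 2 ^ M ≤ (2 * q) ^ M := Nat.pow_le_pow_left (by omega) M
  have hM1 : M + 1 ≤ (2 * q) ^ M := le_trans Nat.lt_two_pow_self h2
  have hq2 : 2 * q ^ 2 ≤ (2 * q) ^ M := by
    calc 2 * q ^ 2 ≤ (2 * q) ^ 2 := by nlinarith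
      _ ≤ (2 * q) ^ M := Nat.pow_le_pow_right (by omega) hM
  have hpos : 1 ≤ 2 ^ M * ((2 * q) ^ M * (q * (n * (M + 1)))) := by
    have : 0 < 2 ^ M * ((2 * q) ^ M * (q * (n * (M + 1)))) := by positivity
    omega
  have hB : BB q M n ≤ 2 * (2 ^ M * ((2 * q) ^ M * (q * (n * (M + 1))))) := by
    unfold BB; omega
  calc NN q M n ≤ (2 * q) ^ M * (q * (2 * (2 ^ M * ((2 * q) ^ M * (q * (n * (M + 1))))) * n)) := by
        unfold NN; gcongr
    _ = (2 * q) ^ (2 * M) * 2 ^ M * (2 * q ^ 2) * (M + 1) * n ^ 2 := by ring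
    _ ≤ (2 * q) ^ (2 * M) * (2 * q) ^ M * (2 * q) ^ M * (2 * q) ^ M * n ^ 2 := by gcongr
    _ = (2 * q) ^ (5 * M) * n ^ 2 := by ring

/-- For every number `q ≥ 1` of colours, every finite graph `H` and every set `A` of its vertices
outside of which all degrees (in `H`) are at most `D`, some complete graph on at most
`(2q)^(5 q (|A| + 3 D)) * |V(H)|^2` vertices contains a monochromatic copy of `H` in every
colouring of its edges with `q` colours. -/
theorem result : ∀ q : ℕ, 1 ≤ q →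
    ∀ (V : Type) [Fintype V] (H : SimpleGraph V) [DecidableRel H.Adj] (A : Finset V) (D : ℕ),
      1 ≤ D → (∀ v : V, v ∉ A → H.degree v ≤ D) →
      ∃ n : ℕ, n ≤ (2 * q) ^ (5 * (q * (A.card + 3 * D))) * Fintype.card V ^ 2 ∧
        ∀ col : Sym2 (Fin n) → Fin q, ∃ i : Fin q, ∃ f : V → Fin n,
          Function.Injective f ∧ ∀ u v : V, H.Adj u v → col s(f u, f v) = i := by
  intro q hq V _ H _ A D hD hdeg
  classical
  rcases isEmpty_or_nonempty V with hV | hV
  · refine ⟨0, Nat.zero_le _, fun col => ⟨⟨0, hq⟩, fun v => (hV.false v).elim, ?_, ?_⟩⟩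
    · intro v
      exact (hV.false v).elim
    · intro v
      exact (hV.false v).elim
  · have hM : 2 ≤ q * (A.card + 3 * D) := by
      calc 2 ≤ 1 * (A.card + 3 * D) := by omega
        _ ≤ q * (A.card + 3 * D) := Nat.mul_le_mul_right _ hq
    exact ⟨_, NN_le' q (Fintype.card V) _ hq Fintype.card_pos hM, fun col =>
      core H q (A.card + 3 * D) D (Fintype.card V) (q * (A.card + 3 * D)) _ A hq hD rfl
        Fintype.card_pos rfl rfl le_rfl hdeg col⟩

end Pool.Agent.Results.MP_01c500_co.DegreeBound
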